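import Pool.Agent.V11102.Rep.Basic

/-! The representation function cannot stay in a short interval: the variance is at least the
mean. -/

open MeasureTheory Filter Topology Set
open scoped Real

namespace V11102.Rep

lemma gen_lower {u : ℕ → ℝ} (hu0 : ∀ n, 0 ≤ u n) {k : ℝ} (hk0 : 0 ≤ k) {n0 : ℕ}
    (hk : ∀ n ≥ n0, k ≤ u n) {y : ℝ} (h0 : 0 ≤ y) (h1 : y < 1)
    (hs : Summable fun n => u n * y ^ n) : k / (1 - y) - k * n0 ≤ ∑' n, u n * y ^ n := by
  have h2 := hs.sum_add_tsum_nat_add n0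
  have h3 : 0 ≤ ∑ i ∈ Finset.range n0, u i * y ^ i :=
    Finset.sum_nonneg fun i _ => mul_nonneg (hu0 i) (pow_nonneg h0 i)
  have h4 : ∑' n, k * y ^ n0 * y ^ n ≤ ∑' n, u (n + n0) * y ^ (n + n0) := by
    refine Summable.tsum_le_tsum (fun n => ?_)
      ((summable_geometric_of_lt_one h0 h1).mul_left _) ((summable_nat_add_iff n0).2 hs)
    rw [mul_assoc, ← pow_add, add_comm n0 n]
    exact mul_le_mul_of_nonneg_right (hk _ (Nat.le_add_left _ _)) (pow_nonneg h0 _)
  rw [tsum_mul_left, tsum_geometric_of_lt_one h0 h1] at h4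
  have h5 : 1 - n0 * (1 - y) ≤ y ^ n0 := by
    have := one_add_mul_le_pow (a := -(1 - y)) (by linarith) n0
    have h6 : (1 + -(1 - y)) = y := by ring
    rw [h6] at this
    linarith
  have h7 : 0 < 1 - y := by linarith
  have h8 : k / (1 - y) - k * n0 ≤ k * y ^ n0 * (1 - y)⁻¹ := by
    have h9 : k * (1 - n0 * (1 - y)) * (1 - y)⁻¹ ≤ k * y ^ n0 * (1 - y)⁻¹ :=
      mul_le_mul_of_nonneg_right (mul_le_mul_of_nonneg_left h5 hk0) (inv_nonneg.2 h7.le)
    refine le_trans (le_of_eq ?_) h9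
    field_simp
  linarith

lemma gen_upper {v : ℕ → ℝ} (hv0 : ∀ n, 0 ≤ v n) {M : ℝ} {n0 : ℕ} (hM0 : 0 ≤ M)
    (hM : ∀ n ≥ n0, v n ≤ M) {y : ℝ} (h0 : 0 ≤ y) (h1 : y < 1)
    (hs : Summable fun n => v n * y ^ n) :
    ∑' n, v n * y ^ n ≤ M / (1 - y) + ∑ i ∈ Finset.range n0, v i := by
  have h2 := hs.sum_add_tsum_nat_add n0
  have h3 : ∑ i ∈ Finset.range n0, v i * y ^ i ≤ ∑ i ∈ Finset.range n0, v i :=
    Finset.sum_le_sum fun i _ => mul_le_of_le_one_right (hv0 i) (pow_le_one₀ h0 h1.le)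
  have h4 : ∑' n, v (n + n0) * y ^ (n + n0) ≤ ∑' n, M * y ^ n := by
    refine Summable.tsum_le_tsum (fun n => ?_) ((summable_nat_add_iff n0).2 hs)
      ((summable_geometric_of_lt_one h0 h1).mul_left _)
    refine mul_le_mul (hM _ (Nat.le_add_left _ _)) ?_ (pow_nonneg h0 _) hM0
    exact pow_le_pow_of_le_one h0 h1.le (Nat.le_add_right _ _)
  rw [tsum_mul_left, tsum_geometric_of_lt_one h0 h1] at h4
  rw [div_eq_mul_inv]
  linarith

/-- lower bounds for the distance to `1` on a circle -/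
lemma w_lower {ρ θ : ℝ} (h : 1 / 2 ≤ ρ) (h1 : ρ < 1) (hθ : |θ| ≤ π) :
    |θ| / 3 ≤ ‖(1 : ℂ) - ρ * Complex.exp (θ * Complex.I)‖ ∧
      1 - ρ ≤ ‖(1 : ℂ) - ρ * Complex.exp (θ * Complex.I)‖ := by
  have h2 : ‖(1 : ℂ) - ρ * Complex.exp (θ * Complex.I)‖ ^ 2 =
      (1 - ρ) ^ 2 + 2 * ρ * (1 - Real.cos θ) := by
    rw [Complex.sq_norm, Complex.normSq_apply]
    simp only [Complex.sub_re, Complex.one_re, Complex.mul_re, Complex.ofReal_re,
      Complex.exp_ofReal_mul_I_re, Complex.ofReal_im, Complex.exp_ofReal_mul_I_im, zero_mul,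
      sub_zero, Complex.sub_im, Complex.one_im, Complex.mul_im, add_zero, zero_sub]
    have := Real.sin_sq_add_cos_sq θ
    nlinarith [this]
  have h3 : 0 ≤ 1 - Real.cos θ := by linarith [Real.cos_le_one θ]
  have h4 : 2 / π ^ 2 * θ ^ 2 ≤ 1 - Real.cos θ := by
    have := Real.cos_le_one_sub_mul_cos_sq hθ
    linarith
  have h5 : 1 / 9 ≤ 2 / π ^ 2 := by
    rw [div_le_div_iff₀ (by norm_num) (by positivity)]
    nlinarith [Real.pi_lt_d2, Real.pi_pos]
  constructor
  · refine le_of_sq_le_sq ?_ (norm_nonneg _)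
    rw [h2, div_pow, sq_abs]
    nlinarith [sq_nonneg (1 - ρ), sq_nonneg θ, mul_nonneg (by linarith : (0 : ℝ) ≤ 2 * ρ - 1) h3,
      mul_le_mul_of_nonneg_right h5 (sq_nonneg θ)]
  · refine le_of_sq_le_sq ?_ (norm_nonneg _)
    rw [h2]
    nlinarith [mul_nonneg (by linarith : (0 : ℝ) ≤ ρ) h3]

/-- the dominating function is integrable -/
lemma dom_int : IntervalIntegrable (fun θ : ℝ => 2 * |θ| ^ (-(1 / 2) : ℝ)) volume (-π) π := by
  have h0 : IntervalIntegrable (fun θ : ℝ => |θ| ^ (-(1 / 2) : ℝ)) volume 0 π := by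
    refine (intervalIntegral.intervalIntegrable_rpow' (a := 0) (b := π)
      (by norm_num : (-1 : ℝ) < -(1 / 2))).congr ?_
    intro x hx
    rw [uIoc_of_le Real.pi_pos.le] at hx
    simp only
    rw [abs_of_pos hx.1]
  have h1 : IntervalIntegrable (fun θ : ℝ => |θ| ^ (-(1 / 2) : ℝ)) volume (-π) 0 := by
    have := (IntervalIntegrable.iff_comp_neg (by simp)).1 h0
    simp only [abs_neg, neg_zero] at this
    exact this.symm
  exact (h1.trans h0).const_mul 2

/-- the radii -/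
noncomputable def rad (j : ℕ) : ℝ := 1 - 1 / ((j : ℝ) + 2)

lemma rad_half (j : ℕ) : 1 / 2 ≤ rad j := by
  unfold rad
  have : 1 / ((j : ℝ) + 2) ≤ 1 / 2 := by
    apply one_div_le_one_div_of_le (by norm_num)
    have : (0 : ℝ) ≤ j := Nat.cast_nonneg j
    linarith
  linarith

lemma rad_lt (j : ℕ) : rad j < 1 := by
  unfold rad
  have : (0 : ℝ) ≤ j := Nat.cast_nonneg j
  have : 0 < 1 / ((j : ℝ) + 2) := by positivity
  linarith

lemma rad_tendsto : Tendsto rad atTop (𝓝 1) := by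
  have h1 : Tendsto (fun j : ℕ => 1 / ((j : ℝ) + 2)) atTop (𝓝 0) := by
    have := tendsto_natCast_atTop_atTop (R := ℝ)
    exact (tendsto_const_nhds.div_atTop (this.atTop_add tendsto_const_nhds))
  have h2 : Tendsto rad atTop (𝓝 (1 - 0)) := (tendsto_const_nhds (x := (1 : ℝ))).sub h1
  rwa [sub_zero] at h2

/-- the integral of the inverse distance -/
noncomputable def J (j : ℕ) : ℝ :=
  ∫ θ in (-π)..π, ‖((1 : ℂ) - rad j * Complex.exp (θ * Complex.I))⁻¹‖

lemma J_cont (j : ℕ) :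
    Continuous fun θ : ℝ => ((1 : ℂ) - rad j * Complex.exp (θ * Complex.I))⁻¹ := by
  refine Continuous.inv₀ (by fun_prop) fun θ h => ?_
  have h1 : ‖(rad j : ℂ) * Complex.exp (θ * Complex.I)‖ = 1 := by
    rw [← sub_eq_zero.1 h, norm_one]
  rw [norm_mul, Complex.norm_exp_ofReal_mul_I, mul_one, Complex.norm_real, Real.norm_eq_abs,
    abs_of_nonneg (by linarith [rad_half j])] at h1
  linarith [rad_lt j]

lemma J_tendsto : Tendsto (fun j => √(1 - rad j) * J j) atTop (𝓝 0) := by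
  have hz : ∀ᵐ θ : ℝ, θ ≠ 0 := by
    have : ({0} : Set ℝ)ᶜ ∈ ae volume := compl_mem_ae_iff.2 (measure_singleton (0 : ℝ))
    filter_upwards [this] with θ hθ using hθ
  have hin : ∀ θ : ℝ, θ ∈ Set.uIoc (-π) π → |θ| ≤ π := by
    intro θ hθ
    rw [uIoc_of_le (by linarith [Real.pi_pos])] at hθ
    exact abs_le.2 ⟨hθ.1.le, hθ.2⟩
  have h1 : Tendsto (fun j => ∫ θ in (-π)..π, √(1 - rad j) *
      ‖((1 : ℂ) - rad j * Complex.exp (θ * Complex.I))⁻¹‖) atTop
      (𝓝 (∫ θ in (-π)..π, (0 : ℝ))) := by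
    refine intervalIntegral.tendsto_integral_filter_of_dominated_convergence
      (fun θ : ℝ => 2 * |θ| ^ (-(1 / 2) : ℝ)) ?_ ?_ dom_int ?_
    · exact Eventually.of_forall fun j =>
        ((J_cont j).norm.const_mul _).aestronglyMeasurable
    · refine Eventually.of_forall fun j => ?_
      filter_upwards [hz] with θ hθ0 hθ
      obtain ⟨h2, h3⟩ := w_lower (rad_half j) (rad_lt j) (hin θ hθ)
      set w := ‖(1 : ℂ) - rad j * Complex.exp (θ * Complex.I)‖ with hw
      have hθp : 0 < |θ| := abs_pos.2 hθ0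
      have hwp : 0 < w := by linarith [rad_lt j]
      have h4 : √(1 - rad j) ≤ √w := Real.sqrt_le_sqrt h3
      have h5 : √|θ| / 2 ≤ √w := by
        apply Real.le_sqrt_of_sq_le
        rw [div_pow, Real.sq_sqrt hθp.le]
        linarith
      have h6 : |θ| ^ (-(1 / 2) : ℝ) = (√|θ|)⁻¹ := by
        rw [Real.rpow_neg hθp.le, Real.sqrt_eq_rpow]
      have h7 : 0 < √w := Real.sqrt_pos.2 hwp
      have h8 : 0 < √|θ| := Real.sqrt_pos.2 hθp
      rw [norm_inv, ← hw, Real.norm_of_nonneg (by positivity), h6]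
      have h9 : √(1 - rad j) * w⁻¹ ≤ √w * w⁻¹ :=
        mul_le_mul_of_nonneg_right h4 (inv_nonneg.2 hwp.le)
      have h10 : √w * w⁻¹ = (√w)⁻¹ := by
        nth_rewrite 2 [← Real.mul_self_sqrt hwp.le]
        field_simp
      have h11 : (√w)⁻¹ ≤ (√|θ| / 2)⁻¹ := inv_anti₀ (by positivity) h5
      have h12 : (√|θ| / 2)⁻¹ = 2 * (√|θ|)⁻¹ := by field_simp
      linarith
    · filter_upwards [hz] with θ hθ0 hθ
      have hθp : 0 < |θ| := abs_pos.2 hθ0
      have h2 : Tendsto (fun j => √(1 - rad j) * (|θ| / 3)⁻¹) atTop (𝓝 (√(1 - 1) * (|θ| / 3)⁻¹)) :=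
        ((Real.continuous_sqrt.tendsto _).comp
          ((tendsto_const_nhds (x := (1 : ℝ))).sub rad_tendsto)).mul_const _
      rw [sub_self, Real.sqrt_zero, zero_mul] at h2
      refine squeeze_zero (fun j => by positivity) (fun j => ?_) h2
      obtain ⟨h3, h4⟩ := w_lower (rad_half j) (rad_lt j) (hin θ hθ)
      rw [norm_inv]
      exact mul_le_mul_of_nonneg_left (inv_anti₀ (by positivity) h3) (Real.sqrt_nonneg _)
  simp only [intervalIntegral.integral_const_mul, intervalIntegral.integral_zero] at h1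
  exact h1

/-- The basic inequality on one circle. -/
lemma basic (A : Set ℕ) {c B : ℝ} (hc : 0 ≤ c) (hB : ∀ n, |(rep A n : ℝ) - c| ≤ B) (j : ℕ) {lam : ℝ}
    (hl : 0 < lam) :
    ∑' n, chi A n * (rad j ^ 2) ^ n ≤ c / (2 * π) * J j + lam / 2 +
      (∑' n, ((rep A n : ℝ) - c) ^ 2 * (rad j ^ 2) ^ n) / (2 * lam) := by
  have h0 : 0 ≤ rad j := by linarith [rad_half j]
  have h1 := rad_lt j
  obtain ⟨c1, p1⟩ := F_pars (u := chi A) (B := 1)
    (fun n => by rw [abs_of_nonneg (chi_nonneg A n)]; exact chi_le A n) h0 h1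
  obtain ⟨c2, p2⟩ := F_pars hB h0 h1
  have h2 : ∀ θ : ℝ, ‖F (chi A) (rad j) θ‖ ^ 2 ≤
      c * ‖((1 : ℂ) - rad j * Complex.exp (θ * Complex.I))⁻¹‖ + (lam / 2 +
        1 / (2 * lam) * ‖F (fun n => (rep A n : ℝ) - c) (rad j) θ‖ ^ 2) := by
    intro θ
    rw [← norm_pow, decomp A c hB h0 h1 θ]
    refine (norm_add_le _ _).trans ?_
    rw [norm_mul, Complex.norm_real, Real.norm_of_nonneg hc]
    refine add_le_add le_rfl ?_
    set e := ‖F (fun n => (rep A n : ℝ) - c) (rad j) θ‖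
    have h3 : lam / 2 + 1 / (2 * lam) * e ^ 2 - e = (lam - e) ^ 2 / (2 * lam) := by
      field_simp
      ring
    have h4 : 0 ≤ (lam - e) ^ 2 / (2 * lam) := by positivity
    linarith
  have hpi : -π ≤ π := by linarith [Real.pi_pos]
  have i1 : IntervalIntegrable (fun θ => ‖F (chi A) (rad j) θ‖ ^ 2) volume (-π) π :=
    (c1.norm.pow 2).intervalIntegrable _ _
  have i2 : IntervalIntegrable (fun θ : ℝ =>
      c * ‖((1 : ℂ) - rad j * Complex.exp (θ * Complex.I))⁻¹‖) volume (-π) π :=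
    ((J_cont j).norm.const_mul c).intervalIntegrable _ _
  have i3 : IntervalIntegrable (fun θ : ℝ =>
      1 / (2 * lam) * ‖F (fun n => (rep A n : ℝ) - c) (rad j) θ‖ ^ 2) volume (-π) π :=
    ((c2.norm.pow 2).const_mul _).intervalIntegrable _ _
  have h3 := intervalIntegral.integral_mono_on hpi i1
    (i2.add ((intervalIntegrable_const (c := lam / 2)).add i3)) (fun θ _ => h2 θ)
  rw [p1, intervalIntegral.integral_add i2 (intervalIntegrable_const.add i3),
    intervalIntegral.integral_add intervalIntegrable_const i3,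
    intervalIntegral.integral_const_mul, intervalIntegral.integral_const_mul, p2,
    intervalIntegral.integral_const] at h3
  simp only [chi_sq] at h3
  have h4 : (∫ θ in (-π)..π, ‖((1 : ℂ) - rad j * Complex.exp (θ * Complex.I))⁻¹‖) = J j := rfl
  rw [h4] at h3
  have hp := Real.pi_pos
  have h5 : ∑' n, chi A n * (rad j ^ 2) ^ n = (2 * π)⁻¹ *
      (2 * π * ∑' n, chi A n * (rad j ^ 2) ^ n) := by field_simp
  rw [h5]
  refine (mul_le_mul_of_nonneg_left h3 (by positivity)).trans (le_of_eq ?_)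
  simp only [smul_eq_mul]
  field_simp
  ring

/-- **The variance is at least the mean.** -/
theorem main (A : Set ℕ) (k l : ℕ) (hkl : ((l : ℝ) - k) ^ 2 < 4 * k)
    (h : ∀ᶠ n in atTop, k ≤ rep A n) (h' : ∀ᶠ n in atTop, rep A n ≤ l) : False := by
  obtain ⟨n0, hn0⟩ := eventually_atTop.1 (h.and h')
  set c : ℝ := ((k : ℝ) + l) / 2 with hc
  have hc0 : 0 ≤ c := by positivity
  set D : ℝ := |(l : ℝ) - k| / 2 with hD
  have hD0 : 0 ≤ D := by positivity
  have hDk : D ^ 2 < k := by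
    rw [hD, div_pow, sq_abs]
    linarith
  have hdev : ∀ n ≥ n0, |(rep A n : ℝ) - c| ≤ D := by
    intro n hn
    obtain ⟨h1, h2⟩ := hn0 n hn
    have h3 : (k : ℝ) ≤ rep A n := by exact_mod_cast h1
    have h4 : (rep A n : ℝ) ≤ l := by exact_mod_cast h2
    rw [hD, hc, abs_of_nonneg (by linarith : (0 : ℝ) ≤ (l : ℝ) - k), abs_le]
    constructor <;> linarith
  set B : ℝ := D + ∑ i ∈ Finset.range n0, |(rep A i : ℝ) - c| with hBdef
  have hB : ∀ n, |(rep A n : ℝ) - c| ≤ B := by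
    intro n
    by_cases hn : n0 ≤ n
    · have : 0 ≤ ∑ i ∈ Finset.range n0, |(rep A i : ℝ) - c| :=
        Finset.sum_nonneg fun i _ => abs_nonneg _
      linarith [hdev n hn]
    · have := Finset.single_le_sum (f := fun i => |(rep A i : ℝ) - c|)
        (fun i _ => abs_nonneg _) (Finset.mem_range.2 (not_le.1 hn))
      linarith
  set C' : ℝ := ∑ i ∈ Finset.range n0, ((rep A i : ℝ) - c) ^ 2 with hC'
  set D' : ℝ := √((D ^ 2 + k) / 2) with hD'
  have hk0 : (0 : ℝ) < k := lt_of_le_of_lt (sq_nonneg D) hDk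
  have hD'p : 0 < D' := Real.sqrt_pos.2 (by positivity)
  have hD'sq : D' ^ 2 = (D ^ 2 + k) / 2 := Real.sq_sqrt (by positivity)
  -- the inequality for each j
  have hmain : ∀ j : ℕ, √((k : ℝ) - k * n0 * (1 - rad j ^ 2)) ≤
      c / (2 * π) * (√(1 - rad j) * J j) * √(1 + rad j) + D' / 2 +
        (D ^ 2 + C' * (1 - rad j ^ 2)) / (2 * D') := by
    intro j
    have r0 : 0 ≤ rad j := by linarith [rad_half j]
    have r1 := rad_lt j
    set y := rad j ^ 2 with hy
    have y0 : 0 ≤ y := sq_nonneg _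
    have y1 : y < 1 := by rw [hy]; nlinarith
    have ht : 0 < 1 - y := by linarith
    set s := √(1 - y) with hs
    have hsp : 0 < s := Real.sqrt_pos.2 ht
    have hss : s ^ 2 = 1 - y := Real.sq_sqrt ht.le
    have h1 := basic A hc0 hB j (div_pos hD'p hsp)
    rw [← hy] at h1
    set S := ∑' n, chi A n * y ^ n with hS
    set W := ∑' n, ((rep A n : ℝ) - c) ^ 2 * y ^ n with hW
    have hS0 : 0 ≤ S := tsum_nonneg fun n => mul_nonneg (chi_nonneg A n) (pow_nonneg y0 n)
    have hsq := sq_gen A y0 y1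
    have h2 : (k : ℝ) / (1 - y) - k * n0 ≤ S ^ 2 := by
      rw [← hsq.tsum_eq]
      exact gen_lower (fun n => Nat.cast_nonneg _) hk0.le
        (fun n hn => by exact_mod_cast (hn0 n hn).1) y0 y1 hsq.summable
    have h3 : W ≤ D ^ 2 / (1 - y) + C' := by
      refine gen_upper (fun n => sq_nonneg _) (sq_nonneg D) (fun n hn => ?_) y0 y1 ?_
      · rw [← sq_abs]
        exact pow_le_pow_left₀ (abs_nonneg _) (hdev n hn) 2
      · refine summ (B := B ^ 2) (fun n => ?_) y0 y1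
        rw [abs_of_nonneg (sq_nonneg _), ← sq_abs]
        exact pow_le_pow_left₀ (abs_nonneg _) (hB n) 2
    have h4 : √((k : ℝ) - k * n0 * (1 - y)) ≤ S * s := by
      apply Real.sqrt_le_iff.2
      refine ⟨by positivity, ?_⟩
      rw [mul_pow, hss]
      have h5 := mul_le_mul_of_nonneg_right h2 ht.le
      have h6 : ((k : ℝ) / (1 - y) - k * n0) * (1 - y) = k - k * n0 * (1 - y) := by
        field_simp
      linarith
    have h5 : s = √(1 - rad j) * √(1 + rad j) := by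
      rw [← Real.sqrt_mul (by linarith), hs, hy]
      congr 1
      ring
    have h6 : W * (1 - y) ≤ D ^ 2 + C' * (1 - y) := by
      have h7 := mul_le_mul_of_nonneg_right h3 ht.le
      have h8 : (D ^ 2 / (1 - y) + C') * (1 - y) = D ^ 2 + C' * (1 - y) := by field_simp
      linarith
    have h7 : S * s ≤ (c / (2 * π) * J j + D' / s / 2 + W / (2 * (D' / s))) * s :=
      mul_le_mul_of_nonneg_right h1 hsp.le
    have h8 : (c / (2 * π) * J j + D' / s / 2 + W / (2 * (D' / s))) * s =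
        c / (2 * π) * J j * s + D' / 2 + W * s ^ 2 / (2 * D') := by
      field_simp
    rw [h8, hss] at h7
    have h9 : W * (1 - y) / (2 * D') ≤ (D ^ 2 + C' * (1 - y)) / (2 * D') :=
      div_le_div_of_nonneg_right h6 (by positivity)
    have h10 : c / (2 * π) * J j * s = c / (2 * π) * (√(1 - rad j) * J j) * √(1 + rad j) := by
      rw [h5]
      ring
    rw [h10] at h7
    linarith
  -- the limit
  have hr := rad_tendsto
  have ht : Tendsto (fun j => 1 - rad j ^ 2) atTop (𝓝 0) := by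
    have := (tendsto_const_nhds (x := (1 : ℝ))).sub (hr.pow 2)
    simpa using this
  have l1 : Tendsto (fun j => √((k : ℝ) - k * n0 * (1 - rad j ^ 2))) atTop (𝓝 √(k : ℝ)) := by
    have h1 : Tendsto (fun j => (k : ℝ) - k * n0 * (1 - rad j ^ 2)) atTop
        (𝓝 ((k : ℝ) - k * n0 * 0)) := tendsto_const_nhds.sub (ht.const_mul _)
    rw [mul_zero, sub_zero] at h1
    exact (Real.continuous_sqrt.tendsto _).comp h1
  have l2 : Tendsto (fun j => c / (2 * π) * (√(1 - rad j) * J j) * √(1 + rad j) + D' / 2 +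
        (D ^ 2 + C' * (1 - rad j ^ 2)) / (2 * D')) atTop
      (𝓝 (c / (2 * π) * 0 * √(1 + 1) + D' / 2 + (D ^ 2 + C' * 0) / (2 * D'))) := by
    refine Tendsto.add (Tendsto.add (Tendsto.mul (J_tendsto.const_mul _) ?_) tendsto_const_nhds) ?_
    · exact (Real.continuous_sqrt.tendsto _).comp (tendsto_const_nhds.add hr)
    · exact (tendsto_const_nhds.add (ht.const_mul _)).div_const _
  have h1 := le_of_tendsto_of_tendsto' l1 l2 hmain
  rw [mul_zero, zero_mul, zero_add, mul_zero, add_zero] at h1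
  have h2 : D ^ 2 / (2 * D') < D' / 2 := by
    rw [div_lt_div_iff₀ (by positivity) (by norm_num)]
    nlinarith
  have h3 : √(k : ℝ) < D' := by linarith
  have h4 : (k : ℝ) < D' ^ 2 := by
    have := Real.sq_sqrt hk0.le
    have h5 := Real.sqrt_nonneg (k : ℝ)
    nlinarith
  linarith

end V11102.Rep
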