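import Mathlib
import Pool.Agent.H781R2.Pars

/-! Representation functions of sets of natural numbers: the generating function on circles. -/

open MeasureTheory Filter Topology Set
open scoped Real

namespace V11102.Rep

/-- The number of ordered pairs `(a, b)` of elements of `A` with `a + b = n`. -/
noncomputable def rep (A : Set ℕ) (n : ℕ) : ℕ :=
  {p : ℕ × ℕ | p.1 ∈ A ∧ p.2 ∈ A ∧ p.1 + p.2 = n}.ncard

/-- The indicator of `A`. -/
noncomputable def chi (A : Set ℕ) (n : ℕ) : ℝ := A.indicator (fun _ => (1 : ℝ)) n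

lemma chi_sq (A : Set ℕ) (n : ℕ) : chi A n ^ 2 = chi A n := by
  unfold chi
  by_cases h : n ∈ A <;> simp [h]

lemma chi_nonneg (A : Set ℕ) (n : ℕ) : 0 ≤ chi A n := by
  unfold chi
  by_cases h : n ∈ A <;> simp [h]

lemma chi_le (A : Set ℕ) (n : ℕ) : chi A n ≤ 1 := by
  unfold chi
  by_cases h : n ∈ A <;> simp [h]

lemma rep_eq (A : Set ℕ) (n : ℕ) :
    (rep A n : ℝ) = ∑ p ∈ Finset.HasAntidiagonal.antidiagonal n, chi A p.1 * chi A p.2 := by
  classical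
  have h1 : {p : ℕ × ℕ | p.1 ∈ A ∧ p.2 ∈ A ∧ p.1 + p.2 = n} =
      ((Finset.HasAntidiagonal.antidiagonal n).filter (fun p => p.1 ∈ A ∧ p.2 ∈ A) : Set (ℕ × ℕ)) := by
    ext p
    simp only [Set.mem_ofPred_eq, Finset.coe_filter, Finset.HasAntidiagonal.mem_antidiagonal]
    tauto
  rw [rep, h1, Set.ncard_coe_finset, Finset.card_filter]
  push_cast
  refine Finset.sum_congr rfl fun p _ => ?_
  unfold chi
  by_cases h2 : p.1 ∈ A <;> by_cases h3 : p.2 ∈ A <;> simp [h2, h3]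

/-- powers of a fixed number times a bounded sequence are summable -/
lemma summ {u : ℕ → ℝ} {B : ℝ} (hu : ∀ n, |u n| ≤ B) {y : ℝ} (h0 : 0 ≤ y) (h1 : y < 1) :
    Summable fun n => u n * y ^ n := by
  refine Summable.of_norm_bounded ((summable_geometric_of_lt_one h0 h1).mul_left B) fun n => ?_
  rw [Real.norm_eq_abs, abs_mul, abs_of_nonneg (pow_nonneg h0 n)]
  exact mul_le_mul_of_nonneg_right (hu n) (pow_nonneg h0 n)

/-- the square of the generating function, real points -/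
lemma sq_gen (A : Set ℕ) {y : ℝ} (h0 : 0 ≤ y) (h1 : y < 1) :
    HasSum (fun n => (rep A n : ℝ) * y ^ n) ((∑' n, chi A n * y ^ n) ^ 2) := by
  have hs : Summable fun n => chi A n * y ^ n :=
    summ (B := 1) (fun n => by rw [abs_of_nonneg (chi_nonneg A n)]; exact chi_le A n) h0 h1
  have hn : Summable fun n => ‖chi A n * y ^ n‖ := hs.norm
  have h2 := tsum_mul_tsum_eq_tsum_sum_antidiagonal_of_summable_norm hn hn
  have h3 := (summable_norm_sum_mul_antidiagonal_of_summable_norm hn hn).of_norm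
  have h4 : ∀ n, ∑ p ∈ Finset.HasAntidiagonal.antidiagonal n, (chi A p.1 * y ^ p.1) * (chi A p.2 * y ^ p.2) =
      (rep A n : ℝ) * y ^ n := by
    intro n
    rw [rep_eq, Finset.sum_mul]
    refine Finset.sum_congr rfl fun p hp => ?_
    rw [← Finset.HasAntidiagonal.mem_antidiagonal.1 hp, pow_add]
    ring
  rw [sq, h2]
  simp only [h4] at h3 ⊢
  exact h3.hasSum

/-- the generating function on the circle of radius `ρ` -/
noncomputable def F (u : ℕ → ℝ) (ρ θ : ℝ) : ℂ :=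
  ∑' n : ℕ, (((u n * ρ ^ n : ℝ) : ℂ)) * Complex.exp ((n : ℤ) * θ * Complex.I)

lemma F_summable {u : ℕ → ℝ} {B : ℝ} (hu : ∀ n, |u n| ≤ B) {ρ : ℝ} (h0 : 0 ≤ ρ) (h1 : ρ < 1)
    (θ : ℝ) : Summable fun n : ℕ => ‖(((u n * ρ ^ n : ℝ) : ℂ)) *
      Complex.exp ((n : ℤ) * θ * Complex.I)‖ := by
  have h2 : ∀ n : ℕ, ‖(((u n * ρ ^ n : ℝ) : ℂ)) * Complex.exp ((n : ℤ) * θ * Complex.I)‖ =
      ‖u n * ρ ^ n‖ := by
    intro n
    rw [H781.bnd_10059, Complex.norm_real]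
  simp only [h2]
  exact (summ hu h0 h1).norm

lemma F_pars {u : ℕ → ℝ} {B : ℝ} (hu : ∀ n, |u n| ≤ B) {ρ : ℝ} (h0 : 0 ≤ ρ) (h1 : ρ < 1) :
    Continuous (F u ρ) ∧
      ∫ θ in (-π)..π, ‖F u ρ θ‖ ^ 2 = 2 * π * ∑' n, u n ^ 2 * (ρ ^ 2) ^ n := by
  have h2 := H781.pars_10059 (fun n => ((u n * ρ ^ n : ℝ) : ℂ))
    (by simpa [Complex.norm_real] using (summ hu h0 h1).norm) (F u ρ)
    (fun θ => (F_summable hu h0 h1 θ).of_norm.hasSum)
  refine ⟨h2.1, ?_⟩
  rw [← h2.2.tsum_eq, tsum_mul_left]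
  congr 2
  funext n
  rw [Complex.norm_real, Real.norm_eq_abs, sq_abs, mul_pow, ← pow_mul, ← pow_mul, mul_comm n 2]

/-- the square of the generating function on the circle -/
lemma F_sq (A : Set ℕ) {ρ : ℝ} (h0 : 0 ≤ ρ) (h1 : ρ < 1) (θ : ℝ) :
    HasSum (fun n : ℕ => ((((rep A n : ℝ) * ρ ^ n : ℝ) : ℂ)) *
      Complex.exp ((n : ℤ) * θ * Complex.I)) (F (chi A) ρ θ ^ 2) := by
  have hn := F_summable (u := chi A) (B := 1)
    (fun n => by rw [abs_of_nonneg (chi_nonneg A n)]; exact chi_le A n) h0 h1 θ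
  have h2 := tsum_mul_tsum_eq_tsum_sum_antidiagonal_of_summable_norm hn hn
  have h3 := (summable_norm_sum_mul_antidiagonal_of_summable_norm hn hn).of_norm
  have h4 : ∀ n, ∑ p ∈ Finset.HasAntidiagonal.antidiagonal n,
      ((((chi A p.1 * ρ ^ p.1 : ℝ) : ℂ)) * Complex.exp ((p.1 : ℤ) * θ * Complex.I)) *
      ((((chi A p.2 * ρ ^ p.2 : ℝ) : ℂ)) * Complex.exp ((p.2 : ℤ) * θ * Complex.I)) =
      ((((rep A n : ℝ) * ρ ^ n : ℝ) : ℂ)) * Complex.exp ((n : ℤ) * θ * Complex.I) := by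
    intro n
    rw [rep_eq, Finset.sum_mul, Complex.ofReal_sum, Finset.sum_mul]
    refine Finset.sum_congr rfl fun p hp => ?_
    rw [← Finset.HasAntidiagonal.mem_antidiagonal.1 hp]
    have : Complex.exp (((p.1 + p.2 : ℕ) : ℤ) * θ * Complex.I) =
        Complex.exp ((p.1 : ℤ) * θ * Complex.I) * Complex.exp ((p.2 : ℤ) * θ * Complex.I) := by
      rw [← Complex.exp_add]
      congr 1
      push_cast
      ring
    rw [this]
    push_cast
    ring
  rw [sq, F, h2]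
  simp only [h4] at h3 ⊢
  exact h3.hasSum

/-- the geometric series on the circle -/
lemma geom (ρ θ : ℝ) (h0 : 0 ≤ ρ) (h1 : ρ < 1) :
    HasSum (fun n : ℕ => ((ρ ^ n : ℝ) : ℂ) * Complex.exp ((n : ℤ) * θ * Complex.I))
      (1 - ρ * Complex.exp (θ * Complex.I))⁻¹ := by
  have h2 : ‖(ρ : ℂ) * Complex.exp (θ * Complex.I)‖ < 1 := by
    rw [norm_mul, Complex.norm_exp_ofReal_mul_I, mul_one, Complex.norm_real, Real.norm_eq_abs,
      abs_of_nonneg h0]
    exact h1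
  refine (hasSum_geometric_of_norm_lt_one h2).congr_fun fun n => ?_
  rw [mul_pow, ← Complex.exp_nat_mul]
  push_cast
  congr 2
  ring

/-- The pointwise decomposition. -/
lemma decomp (A : Set ℕ) (c : ℝ) {B : ℝ} (hB : ∀ n, |(rep A n : ℝ) - c| ≤ B)
    {ρ : ℝ} (h0 : 0 ≤ ρ) (h1 : ρ < 1) (θ : ℝ) :
    F (chi A) ρ θ ^ 2 = c * (1 - ρ * Complex.exp (θ * Complex.I))⁻¹ +
      F (fun n => (rep A n : ℝ) - c) ρ θ := by
  have h2 := (geom ρ θ h0 h1).mul_left (c : ℂ)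
  have h3 := (F_summable hB h0 h1 θ).of_norm.hasSum
  refine (F_sq A h0 h1 θ).unique ((h2.add h3).congr_fun fun n => ?_)
  push_cast
  ring

end V11102.Rep
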